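import Pool.Agent.Y795.COP.Lim

/-!
# The exponential rate at which `s_n` tends to one
-/

set_option autoImplicit false

open Filter Topology
open Pool.Agent.Results.MP_2d7e0f_pr.SupAttained

namespace Pool.Agent.Results.MP_2d7e0f_pr.ExponentialRate

/-- **The exponential rate of `1 - s_n`.** For every `n ≥ 3`
`exp (-n) - 1 / n! ≤ 1 - s_n ≤ n * n! / n ^ n`,
and `(1 - s_n) ^ (1 / n)` tends to `1 / e`. -/
theorem result :
    (∀ n : ℕ, 3 ≤ n →
      Real.exp (-(n : ℝ)) - 1 / n.factorial ≤ 1 - (s n).toReal ∧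
      1 - (s n).toReal ≤ n * n.factorial / (n : ℝ) ^ n) ∧
    Tendsto (fun n : ℕ => (1 - (s n).toReal) ^ (1 / (n : ℝ))) atTop (𝓝 (Real.exp (-1))) :=
  ⟨fun n hn => ⟨Pool.Agent.Y795.COP.le_one_sub_s (by omega),
    Pool.Agent.Y795.COP.one_sub_s_le n (by omega)⟩, Pool.Agent.Y795.COP.tendsto_rate⟩

end Pool.Agent.Results.MP_2d7e0f_pr.ExponentialRate
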