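import Pool.Agent.Y559.FR.Small
import Pool.Agent.Y559.FR.Data

/-!
# `MP_2d7e0f_pr`: explicit two-sided bounds for `s_3`, lower bounds for `s_4`, `s_5`

`s n`, `IsCopula` and `W` are the definitions of the file `SupAttained` of this problem.
-/

open MeasureTheory Set Filter Topology
open scoped unitInterval ENNReal

namespace Pool.Agent.Results.MP_2d7e0f_pr.ThreeDim

open Pool.Agent.Results.MP_2d7e0f_pr.SupAttained

lemma disagree {C : (Fin 3 → I) → I} (hC : IsCopula C) :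
    ENNReal.ofReal (1 / 16) ≤ (volume : Measure (Fin 3 → I)) {x | W x < (C x : ℝ)} := by
  have h := Pool.Agent.Y559.FR.pack_chk hC 28 (by norm_num) Pool.Agent.Y559.FR.data
    Pool.Agent.Y559.FR.data_good Pool.Agent.Y559.FR.data_nodup
  rw [Pool.Agent.Y559.FR.data_length] at h
  refine le_trans (ENNReal.ofReal_le_ofReal ?_) h
  norm_num

/-- Explicit two-sided bounds for `s_3`, and explicit lower bounds in dimensions 4 and 5. -/
theorem result :
    ((43 : ℝ) / 54 ≤ (s 3).toReal ∧ (s 3).toReal ≤ 15 / 16) ∧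
    (∃ C : (Fin 3 → I) → I, IsCopula C ∧
      (volume : Measure (Fin 3 → I)) {x | (C x : ℝ) ≠ W x} ≤ ENNReal.ofReal (11 / 54)) ∧
    (∀ C : (Fin 3 → I) → I, IsCopula C →
      ENNReal.ofReal (1 / 16) ≤ (volume : Measure (Fin 3 → I)) {x | W x < (C x : ℝ)}) ∧
    (185 : ℝ) / 256 ≤ (s 4).toReal ∧
    (2664 : ℝ) / 3125 ≤ (s 5).toReal ∧
    (∀ (n : ℕ) [NeZero n], 1 - (s n).toReal ≤
      ((Finset.univ.filter fun a : Fin n → Fin n => ∃ K : Fin n, ∀ i, i + K ≤ a i).card : ℝ) /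
        (n : ℝ) ^ n) := by
  refine ⟨⟨Pool.Agent.Y559.FR.s_three_ge, ?_⟩, ⟨Pool.Agent.Y559.FR.three,
      Pool.Agent.Y559.FR.isCopula_three, Pool.Agent.Y559.FR.volume_three_ne⟩,
    fun C hC => disagree hC, Pool.Agent.Y559.FR.s_four, Pool.Agent.Y559.FR.s_five,
    fun n _ => Pool.Agent.Y559.FR.s_ge_cells n⟩
  have h := Pool.Agent.Y559.FR.s_three_le (1 / 16) (by norm_num) (fun C hC => disagree hC)
  linarith

end Pool.Agent.Results.MP_2d7e0f_pr.ThreeDim
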